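import Pool.Agent.helper51.NP.Spec

set_option autoImplicit false

namespace NPC

open Finset Real ArithmeticFunction Pool.Agent.helper39.MT Pool.Agent.helper85.FC

theorem ABS : ABS_stmt := by
  intro S G w ν edge _ c₁ E Q B T V H hGS hw hc₁ hE hB hT hG hQ hfib hV hH hmain
  classical
  set bad : ℕ → Prop := fun n => edge n ∨
    ¬ T ≤ ((#{n' ∈ G | ν n' = ν n ∧ ¬ edge n'} : ℕ) : ℝ) with hbad
  set N : Finset ℕ := G.filter bad with hN
  set Z : Finset ℕ := (range V).filter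
    (fun r => T ≤ ((#{n ∈ G | ν n = r ∧ ¬ edge n} : ℕ) : ℝ)) with hZ
  have hQ0 : 0 ≤ Q := (Finset.sum_nonneg fun n _ => sq_nonneg (w n)).trans hQ
  -- number of elements of N
  have hcard : ((#N : ℕ) : ℝ) ≤ V * (T + H) := by
    have h1 : #N = ∑ r ∈ range V, #{n ∈ N | ν n = r} := by
      refine Finset.card_eq_sum_card_fiberwise ?_
      intro n hn
      have hn' : n ∈ G := (Finset.mem_filter.1 hn).1
      exact Finset.mem_coe.2 (Finset.mem_range.2 (hV n (hGS hn')))
    rw [h1]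
    push_cast
    have h2 : ∀ r ∈ range V, ((#{n ∈ N | ν n = r} : ℕ) : ℝ) ≤ T + H := by
      intro r _
      by_cases hr : T ≤ ((#{n ∈ G | ν n = r ∧ ¬ edge n} : ℕ) : ℝ)
      · have h3 : #{n ∈ N | ν n = r} ≤ #{n ∈ S | ν n = r ∧ edge n} := by
          refine Finset.card_le_card fun n hn => ?_
          rw [Finset.mem_filter] at hn ⊢
          obtain ⟨hn1, hn2⟩ := hn
          rw [hN, Finset.mem_filter] at hn1
          refine ⟨hGS hn1.1, hn2, ?_⟩
          rcases hn1.2 with h | h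
          · exact h
          · rw [hn2] at h
            exact absurd hr h
        have h4 : ((#{n ∈ N | ν n = r} : ℕ) : ℝ) ≤ H := by exact_mod_cast h3.trans (hH r)
        linarith
      · have h3 : #{n ∈ N | ν n = r} ≤ #{n ∈ S | ν n = r ∧ edge n} +
            #{n ∈ G | ν n = r ∧ ¬ edge n} := by
          refine le_trans (Finset.card_le_card fun n hn => ?_) (Finset.card_union_le _ _)
          rw [Finset.mem_filter] at hn
          obtain ⟨hn1, hn2⟩ := hn
          rw [hN, Finset.mem_filter] at hn1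
          rw [Finset.mem_union, Finset.mem_filter, Finset.mem_filter]
          by_cases he : edge n
          · exact Or.inl ⟨hGS hn1.1, hn2, he⟩
          · exact Or.inr ⟨hn1.1, hn2, he⟩
        have h4 : ((#{n ∈ N | ν n = r} : ℕ) : ℝ) ≤
            ((#{n ∈ S | ν n = r ∧ edge n} : ℕ) : ℝ) + ((#{n ∈ G | ν n = r ∧ ¬ edge n} : ℕ) : ℝ) := by
          exact_mod_cast h3
        have h5 : ((#{n ∈ S | ν n = r ∧ edge n} : ℕ) : ℝ) ≤ H := by exact_mod_cast hH r
        have h6 := not_le.1 hr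
        linarith
    calc ∑ r ∈ range V, ((#{n ∈ N | ν n = r} : ℕ) : ℝ) ≤ ∑ r ∈ range V, (T + H) :=
          Finset.sum_le_sum h2
      _ = V * (T + H) := by rw [Finset.sum_const, Finset.card_range, nsmul_eq_mul]
  -- the sum over N
  have hNsum : ∑ n ∈ N, w n ≤ c₁ / 2 := by
    have hNS : N ⊆ S := (Finset.filter_subset _ _).trans hGS
    have h1 : (∑ n ∈ N, w n) ^ 2 ≤ (#N : ℝ) * ∑ n ∈ N, w n ^ 2 := sq_sum_le_card_mul_sum_sq
    have h2 : ∑ n ∈ N, w n ^ 2 ≤ Q :=
      (Finset.sum_le_sum_of_subset_of_nonneg hNS fun n _ _ => sq_nonneg _).trans hQ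
    have h3 : (∑ n ∈ N, w n) ^ 2 ≤ (c₁ / 2) ^ 2 := by
      calc (∑ n ∈ N, w n) ^ 2 ≤ (#N : ℝ) * ∑ n ∈ N, w n ^ 2 := h1
        _ ≤ (#N : ℝ) * Q := mul_le_mul_of_nonneg_left h2 (Nat.cast_nonneg _)
        _ ≤ (V * (T + H)) * Q := mul_le_mul_of_nonneg_right hcard hQ0
        _ ≤ (c₁ / 2) ^ 2 := hmain
    exact le_of_sq_le_sq h3 (by positivity)
  -- the rest
  have hrest : ∑ n ∈ G.filter (fun n => ¬ bad n), w n ≤ (#Z : ℝ) * (B * E) := by
    have hmaps : ∀ n ∈ G.filter (fun n => ¬ bad n), ν n ∈ Z := by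
      intro n hn
      rw [Finset.mem_filter] at hn
      obtain ⟨hn1, hn2⟩ := hn
      rw [hZ, Finset.mem_filter, Finset.mem_range]
      refine ⟨hV n (hGS hn1), ?_⟩
      by_contra h
      exact hn2 (Or.inr h)
    rw [← Finset.sum_fiberwise_of_maps_to hmaps]
    calc ∑ r ∈ Z, ∑ n ∈ (G.filter (fun n => ¬ bad n)) with ν n = r, w n
        ≤ ∑ r ∈ Z, ∑ n ∈ S with ν n = r, w n := by
          refine Finset.sum_le_sum fun r _ => ?_
          refine Finset.sum_le_sum_of_subset_of_nonneg ?_ ?_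
          · intro n hn
            rw [Finset.mem_filter] at hn ⊢
            exact ⟨hGS (Finset.mem_filter.1 hn.1).1, hn.2⟩
          · intro n hn _
            exact hw n (Finset.mem_filter.1 hn).1
      _ ≤ ∑ r ∈ Z, B * E := Finset.sum_le_sum fun r _ => hfib r
      _ = (#Z : ℝ) * (B * E) := by rw [Finset.sum_const, nsmul_eq_mul]
  have htot : ∑ n ∈ G, w n = ∑ n ∈ N, w n + ∑ n ∈ G.filter (fun n => ¬ bad n), w n :=
    (Finset.sum_filter_add_sum_filter_not G bad w).symm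
  have hE0 : 0 < E := by linarith
  have hfin : c₁ / 2 * E ≤ (#Z : ℝ) * (B * E) := by
    have h1 : c₁ / 2 ≤ c₁ / 2 * E := le_mul_of_one_le_right (by positivity) hE
    nlinarith
  have hfin2 : c₁ / 2 ≤ (#Z : ℝ) * B := by
    have : c₁ / 2 * E ≤ ((#Z : ℝ) * B) * E := by linarith [mul_assoc (#Z : ℝ) B E]
    exact le_of_mul_le_mul_right this hE0
  have : c₁ / (2 * B) ≤ (#Z : ℝ) := by
    rw [div_le_iff₀ (by positivity)]
    linarith
  exact this

end NPC
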